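import Pool.Agent.Helper89.DS.Div
import Pool.Agent.Helper89.DS.MaxForm

set_option autoImplicit false

namespace Pool.Agent.Results.MP_120218_co.FewDivisors

open Finset

/-- **The Erdős–Szemerédi inequality, for all `k` and with the full exponent, for all sets with few
divisors.** Let `k ≥ 1`, `ε > 0` and `C` be given. There is `c > 0` such that the following holds
for every finite non-empty set `A` of integers.

(1) If `A` consists of non-zero integers and at most `|A|^(1+c)` positive integers divide an element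
of `A` (for instance `A` is closed under divisors, or `A` is any set of at least `|D|^(1/(1+c))`
elements of a finite set `D` closed under divisors), then `max (|kA|, |A^k|) ≥ c |A|^(k-ε)`.

(2) In the following cases the sums alone are enough, even with an arbitrary set `X`:
`|kA| ≥ c |A|^(k-ε)`, and `|X + A| ≥ c (|X| |A|)^(1-ε)` for every finite non-empty set `X` of
integers:

(a) all elements of `A` divide one positive integer `n` which has at most `|A|^(1+c)` positive
divisors (equivalently: `A` is any set of at least `d(n)^(1/(1+c))` divisors of `n`);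

(b) `A` is as in (1) and at most `C log |A|` primes divide an element of `A`;

(c) there are a finite set `T` of at most `C log |A|` pairwise coprime integers `≥ 2` and a finite
set `D` of vectors of exponents, closed under lowering exponents, with at most `|A|^(1+c)` elements,
such that all elements of `A` are of the form `± x₀ ∏ q^(d q)` with a fixed `x₀` and `d ∈ D`. -/
theorem result (k : ℕ) (hk : 1 ≤ k) (ε C : ℝ) (hε : 0 < ε) :
    ∃ c : ℝ, 0 < c ∧ ∀ A : Finset ℤ, A.Nonempty →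
      ((0 : ℤ) ∉ A →
        ((A.biUnion fun a => a.natAbs.divisors).card : ℝ) ≤ (A.card : ℝ) ^ (1 + c) →
        c * (A.card : ℝ) ^ ((k : ℝ) - ε) ≤
          max
            (((Fintype.piFinset (fun _ : Fin k => A)).image
              (fun f : Fin k → ℤ => ∑ i, f i)).card : ℝ)
            (((Fintype.piFinset (fun _ : Fin k => A)).image
              (fun f : Fin k → ℤ => ∏ i, f i)).card : ℝ)) ∧
      (((∃ n : ℕ, 0 < n ∧ (∀ a ∈ A, a ∣ (n : ℤ)) ∧
          (n.divisors.card : ℝ) ≤ (A.card : ℝ) ^ (1 + c)) ∨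
        ((0 : ℤ) ∉ A ∧
          ((A.biUnion fun a => a.natAbs.primeFactors).card : ℝ) ≤ C * Real.log (A.card : ℝ) ∧
          ((A.biUnion fun a => a.natAbs.divisors).card : ℝ) ≤ (A.card : ℝ) ^ (1 + c)) ∨
        (∃ (T : Finset ℕ) (D : Finset (ℕ →₀ ℕ)) (x0 : ℕ), 0 < x0 ∧ (∀ q ∈ T, 2 ≤ q) ∧
          (∀ q ∈ T, ∀ q' ∈ T, q ≠ q' → Nat.Coprime q q') ∧ (∀ d ∈ D, d.support ⊆ T) ∧
          (∀ d ∈ D, ∀ f : ℕ →₀ ℕ, f ≤ d → f ∈ D) ∧
          (∀ a ∈ A, ∃ d ∈ D, a.natAbs = x0 * d.prod (fun q i => q ^ i)) ∧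
          (T.card : ℝ) ≤ C * Real.log (A.card : ℝ) ∧
          (D.card : ℝ) ≤ (A.card : ℝ) ^ (1 + c))) →
        c * (A.card : ℝ) ^ ((k : ℝ) - ε) ≤
          (((Fintype.piFinset (fun _ : Fin k => A)).image
            (fun f : Fin k → ℤ => ∑ i, f i)).card : ℝ) ∧
        ∀ X : Finset ℤ, X.Nonempty →
          c * ((X.card : ℝ) * (A.card : ℝ)) ^ (1 - ε) ≤
            ((Finset.image₂ (fun x y : ℤ => x + y) X A).card : ℝ)) := by
  classical
  obtain ⟨c1, hc1, h1⟩ := Pool.Agent.Helper89.DS.both_div k ε hε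
  have hC : (0 : ℝ) < max C 1 := lt_of_lt_of_le one_pos (le_max_right _ _)
  obtain ⟨c2, hc2, h2⟩ := Pool.Agent.Helper89.DS.both_primes k ε (max C 1) hε hC
  obtain ⟨c3, hc3, h3⟩ := Pool.Agent.Helper89.DS.both k ε (max C 1) hε hC
  obtain ⟨c4, hc4, h4⟩ := Pool.Agent.Helper89.DS.max_form k hk ε hε
  refine ⟨min (min c1 c4) (min c2 c3), by positivity, ?_⟩
  have k1 : min (min c1 c4) (min c2 c3) ≤ c1 := (min_le_left _ _).trans (min_le_left _ _)
  have k4 : min (min c1 c4) (min c2 c3) ≤ c4 := (min_le_left _ _).trans (min_le_right _ _)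
  have k2 : min (min c1 c4) (min c2 c3) ≤ c2 := (min_le_right _ _).trans (min_le_left _ _)
  have k3 : min (min c1 c4) (min c2 c3) ≤ c3 := (min_le_right _ _).trans (min_le_right _ _)
  generalize min (min c1 c4) (min c2 c3) = c at *
  intro A hA
  have hA1 : (1 : ℝ) ≤ (A.card : ℝ) := by exact_mod_cast Finset.card_pos.2 hA
  have hA0 : (0 : ℝ) < (A.card : ℝ) := by linarith
  have hlA : 0 ≤ Real.log (A.card : ℝ) := Real.log_nonneg hA1
  have hmono : ∀ c' : ℝ, c ≤ c' → (A.card : ℝ) ^ (1 + c) ≤ (A.card : ℝ) ^ (1 + c') :=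
    fun c' hc' => Real.rpow_le_rpow_of_exponent_le hA1 (by linarith)
  have hCl : C * Real.log (A.card : ℝ) ≤ max C 1 * Real.log (A.card : ℝ) :=
    mul_le_mul_of_nonneg_right (le_max_left _ _) hlA
  refine ⟨fun h0 hD => ?_, fun hyp => ?_⟩
  · exact (mul_le_mul_of_nonneg_right k4 (Real.rpow_nonneg hA0.le _)).trans
      (h4 A hA h0 (hD.trans (hmono c4 k4)))
  have hfin : ∀ c' : ℝ, c ≤ c' →
      (c' * (A.card : ℝ) ^ ((k : ℝ) - ε) ≤ ((Pool.Agent.Helper89.DS.kZ k A).card : ℝ) ∧
      ∀ X : Finset ℤ, X.Nonempty →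
        c' * ((X.card : ℝ) * (A.card : ℝ)) ^ (1 - ε) ≤
          ((Finset.image₂ (fun x y : ℤ => x + y) X A).card : ℝ)) →
      c * (A.card : ℝ) ^ ((k : ℝ) - ε) ≤
        (((Fintype.piFinset (fun _ : Fin k => A)).image
          (fun f : Fin k → ℤ => ∑ i, f i)).card : ℝ) ∧
      ∀ X : Finset ℤ, X.Nonempty →
        c * ((X.card : ℝ) * (A.card : ℝ)) ^ (1 - ε) ≤
          ((Finset.image₂ (fun x y : ℤ => x + y) X A).card : ℝ) := by
    intro c' hc' h
    constructor
    · exact (mul_le_mul_of_nonneg_right hc' (Real.rpow_nonneg hA0.le _)).trans h.1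
    · intro X hX
      exact (mul_le_mul_of_nonneg_right hc' (Real.rpow_nonneg (by positivity) _)).trans (h.2 X hX)
  rcases hyp with ⟨n, hn, hAn, hD⟩ | ⟨h0, hT, hD⟩ | ⟨T, D, x0, hx0, hT2, hTc, hs, hl, hA', hT, hD⟩
  · exact hfin c1 k1 (h1 A hA n hn hAn (hD.trans (hmono c1 k1)))
  · exact hfin c2 k2 (h2 A hA h0 (hT.trans hCl) (hD.trans (hmono c2 k2)))
  · exact hfin c3 k3 (h3 T ⟨hT2, hTc⟩ D hs hl x0 hx0 A hA hA' (hT.trans hCl)
      (hD.trans (hmono c3 k3)))

end Pool.Agent.Results.MP_120218_co.FewDivisors
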