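import Pool.Agent.Helper89.DS.Div
import Pool.Agent.Helper89.DS.MaxForm
import Pool.Agent.Helper24.PP.GroupsF

set_option autoImplicit false

namespace Pool.Agent.Results.MP_120218_co.FewPrimesOrDivisors

open Finset

/-- **The Erdős–Szemerédi inequality, for all `k` and with the full exponent, for all sets of
integers with few prime factors or with few divisors.** Let `k ≥ 1`, `ε > 0` and `C` be given. There
is `c > 0` such that the following holds for every finite non-empty set `A` of integers.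

(1) `max (|kA|, |A^k|) ≥ c |A|^(k-ε)` in each of the following two cases:

* *few prime factors*: there is an integer `g ≠ 0` such that the fractions `a / g`, `a ∈ A`, have on
  average at most `c log |A|` different primes in numerator and denominator together (for `g = 1`:
  the elements of `A` have on average at most `c log |A|` different prime factors; the element `0`
  counts as a number without prime factors);
* *few divisors*: `0 ∉ A` and at most `|A|^(1+c)` positive integers divide an element of `A` (for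
  instance `A` is closed under divisors, or `A` is any set of at least `|D|^(1/(1+c))` elements of a
  finite set `D` closed under divisors).

(2) In the following cases the sums alone are enough, even with an arbitrary set `X`:
`|kA| ≥ c |A|^(k-ε)`, and `|X + A| ≥ c (|X| |A|)^(1-ε)` for every finite non-empty set `X` of
integers:

(a) all elements of `A` divide one positive integer `n` which has at most `|A|^(1+c)` positive
divisors (equivalently: `A` is any set of at least `d(n)^(1/(1+c))` divisors of `n`);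

(b) `A` has few divisors as in (1) and at most `C log |A|` primes divide an element of `A`;

(c) there are a finite set `T` of at most `C log |A|` pairwise coprime integers `≥ 2` and a finite
set `D` of vectors of exponents, closed under lowering exponents, with at most `|A|^(1+c)` elements,
such that all elements of `A` are of the form `± x₀ ∏ q^(d q)` with a fixed `x₀` and `d ∈ D`. -/
theorem result (k : ℕ) (hk : 1 ≤ k) (ε C : ℝ) (hε : 0 < ε) :
    ∃ c : ℝ, 0 < c ∧ ∀ A : Finset ℤ, A.Nonempty →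
      (((∃ g : ℤ, g ≠ 0 ∧
          ∑ a ∈ A, ((((a : ℚ) / g).num.natAbs.primeFactors.card : ℝ) +
            (((a : ℚ) / g).den.primeFactors.card : ℝ)) ≤ c * (A.card * Real.log A.card)) ∨
        ((0 : ℤ) ∉ A ∧
          ((A.biUnion fun a => a.natAbs.divisors).card : ℝ) ≤ (A.card : ℝ) ^ (1 + c))) →
        c * (A.card : ℝ) ^ ((k : ℝ) - ε) ≤
          max
            (((Fintype.piFinset (fun _ : Fin k => A)).image
              (fun f : Fin k → ℤ => ∑ i, f i)).card : ℝ)
            (((Fintype.piFinset (fun _ : Fin k => A)).image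
              (fun f : Fin k → ℤ => ∏ i, f i)).card : ℝ)) ∧
      (((∃ n : ℕ, 0 < n ∧ (∀ a ∈ A, a ∣ (n : ℤ)) ∧
          (n.divisors.card : ℝ) ≤ (A.card : ℝ) ^ (1 + c)) ∨
        ((0 : ℤ) ∉ A ∧
          ((A.biUnion fun a => a.natAbs.primeFactors).card : ℝ) ≤ C * Real.log (A.card : ℝ) ∧
          ((A.biUnion fun a => a.natAbs.divisors).card : ℝ) ≤ (A.card : ℝ) ^ (1 + c)) ∨
        (∃ (T : Finset ℕ) (D : Finset (ℕ →₀ ℕ)) (x0 : ℕ), 0 < x0 ∧ (∀ q ∈ T, 2 ≤ q) ∧
          (∀ q ∈ T, ∀ q' ∈ T, q ≠ q' → Nat.Coprime q q') ∧ (∀ d ∈ D, d.support ⊆ T) ∧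
          (∀ d ∈ D, ∀ f : ℕ →₀ ℕ, f ≤ d → f ∈ D) ∧
          (∀ a ∈ A, ∃ d ∈ D, a.natAbs = x0 * d.prod (fun q i => q ^ i)) ∧
          (T.card : ℝ) ≤ C * Real.log (A.card : ℝ) ∧
          (D.card : ℝ) ≤ (A.card : ℝ) ^ (1 + c))) →
        c * (A.card : ℝ) ^ ((k : ℝ) - ε) ≤
          (((Fintype.piFinset (fun _ : Fin k => A)).image
            (fun f : Fin k → ℤ => ∑ i, f i)).card : ℝ) ∧
        ∀ X : Finset ℤ, X.Nonempty →
          c * ((X.card : ℝ) * (A.card : ℝ)) ^ (1 - ε) ≤
            ((Finset.image₂ (fun x y : ℤ => x + y) X A).card : ℝ)) := by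
  classical
  obtain ⟨c1, hc1, h1⟩ := Pool.Agent.Helper89.DS.both_div k ε hε
  have hC : (0 : ℝ) < max C 1 := lt_of_lt_of_le one_pos (le_max_right _ _)
  obtain ⟨c2, hc2, h2⟩ := Pool.Agent.Helper89.DS.both_primes k ε (max C 1) hε hC
  obtain ⟨c3, hc3, h3⟩ := Pool.Agent.Helper89.DS.both k ε (max C 1) hε hC
  obtain ⟨c4, hc4, h4⟩ := Pool.Agent.Helper89.DS.max_form k hk ε hε
  obtain ⟨c5, hc5, h5⟩ := Pool.Agent.Helper24.PP.few k hk ε hε
  refine ⟨min c5 (min (min c1 c4) (min c2 c3)), by positivity, ?_⟩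
  have k5 : min c5 (min (min c1 c4) (min c2 c3)) ≤ c5 := min_le_left _ _
  have k1 : min c5 (min (min c1 c4) (min c2 c3)) ≤ c1 :=
    (min_le_right _ _).trans ((min_le_left _ _).trans (min_le_left _ _))
  have k4 : min c5 (min (min c1 c4) (min c2 c3)) ≤ c4 :=
    (min_le_right _ _).trans ((min_le_left _ _).trans (min_le_right _ _))
  have k2 : min c5 (min (min c1 c4) (min c2 c3)) ≤ c2 :=
    (min_le_right _ _).trans ((min_le_right _ _).trans (min_le_left _ _))
  have k3 : min c5 (min (min c1 c4) (min c2 c3)) ≤ c3 :=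
    (min_le_right _ _).trans ((min_le_right _ _).trans (min_le_right _ _))
  generalize min c5 (min (min c1 c4) (min c2 c3)) = c at *
  intro A hA
  have hA1 : (1 : ℝ) ≤ (A.card : ℝ) := by exact_mod_cast Finset.card_pos.2 hA
  have hA0 : (0 : ℝ) < (A.card : ℝ) := by linarith
  have hlA : 0 ≤ Real.log (A.card : ℝ) := Real.log_nonneg hA1
  have hmono : ∀ c' : ℝ, c ≤ c' → (A.card : ℝ) ^ (1 + c) ≤ (A.card : ℝ) ^ (1 + c') :=
    fun c' hc' => Real.rpow_le_rpow_of_exponent_le hA1 (by linarith)
  have hCl : C * Real.log (A.card : ℝ) ≤ max C 1 * Real.log (A.card : ℝ) :=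
    mul_le_mul_of_nonneg_right (le_max_left _ _) hlA
  refine ⟨fun hyp => ?_, fun hyp => ?_⟩
  · rcases hyp with ⟨g, hg, hsum⟩ | ⟨h0, hD⟩
    · refine (mul_le_mul_of_nonneg_right k5 (Real.rpow_nonneg hA0.le _)).trans
        (h5 A hA g (le_trans ?_ (hsum.trans
          (mul_le_mul_of_nonneg_right k5 (mul_nonneg hA0.le hlA)))))
      refine le_trans (sum_le_sum (fun a ha =>
        Pool.Agent.Helper24.PP.act_subset_frac hg (mem_erase.1 ha).1)) ?_
      exact sum_le_sum_of_subset_of_nonneg (erase_subset _ _) (fun _ _ _ => by positivity)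
    · exact (mul_le_mul_of_nonneg_right k4 (Real.rpow_nonneg hA0.le _)).trans
        (h4 A hA h0 (hD.trans (hmono c4 k4)))
  have hfin : ∀ c' : ℝ, c ≤ c' →
      (c' * (A.card : ℝ) ^ ((k : ℝ) - ε) ≤ ((Pool.Agent.Helper89.DS.kZ k A).card : ℝ) ∧
      ∀ X : Finset ℤ, X.Nonempty →
        c' * ((X.card : ℝ) * (A.card : ℝ)) ^ (1 - ε) ≤
          ((Finset.image₂ (fun x y : ℤ => x + y) X A).card : ℝ)) →
      c * (A.card : ℝ) ^ ((k : ℝ) - ε) ≤
        (((Fintype.piFinset (fun _ : Fin k => A)).image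
          (fun f : Fin k → ℤ => ∑ i, f i)).card : ℝ) ∧
      ∀ X : Finset ℤ, X.Nonempty →
        c * ((X.card : ℝ) * (A.card : ℝ)) ^ (1 - ε) ≤
          ((Finset.image₂ (fun x y : ℤ => x + y) X A).card : ℝ) := by
    intro c' hc' h
    constructor
    · exact (mul_le_mul_of_nonneg_right hc' (Real.rpow_nonneg hA0.le _)).trans h.1
    · intro X hX
      exact (mul_le_mul_of_nonneg_right hc' (Real.rpow_nonneg (by positivity) _)).trans (h.2 X hX)
  rcases hyp with ⟨n, hn, hAn, hD⟩ | ⟨h0, hT, hD⟩ | ⟨T, D, x0, hx0, hT2, hTc, hs, hl, hA', hT, hD⟩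
  · exact hfin c1 k1 (h1 A hA n hn hAn (hD.trans (hmono c1 k1)))
  · exact hfin c2 k2 (h2 A hA h0 (hT.trans hCl) (hD.trans (hmono c2 k2)))
  · exact hfin c3 k3 (h3 T ⟨hT2, hTc⟩ D hs hl x0 hx0 A hA hA' (hT.trans hCl)
      (hD.trans (hmono c3 k3)))

end Pool.Agent.Results.MP_120218_co.FewPrimesOrDivisors
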